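import Pool.Agent.Work.MP_2c58b6_co.Proof

open Pool.Agent.Work.MP_2c58b6_co

namespace Pool.Agent.Results.MP_2c58b6_co.Counterexample

/-- There is a loopless balanced digraph of order `n ≥ 2` whose algebraic connectivity `x` and
the algebraic connectivity `y` of whose complement (the minima of the Rayleigh values) satisfy
`x ≤ 1`, `y ≤ 1` and `xy(2 - xy) < n(1 - x)(1 - y)(n - 2 - x - y)`. -/
theorem result :
    ∃ (n : ℕ) (Γ : Digraph (Fin n)) (x y : ℝ), 2 ≤ n ∧ (∀ i, ¬ Γ.Adj i i) ∧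
      (∀ i, inDeg Γ i = outDeg Γ i) ∧
      IsLeast (rayleighValues Γ) x ∧ IsLeast (rayleighValues (complement Γ)) y ∧
      x ≤ 1 ∧ y ≤ 1 ∧
      x * y * (2 - x * y) < (n : ℝ) * (1 - x) * (1 - y) * ((n : ℝ) - 2 - x - y) :=
  Pool.Agent.Work.MP_2c58b6_co.main

end Pool.Agent.Results.MP_2c58b6_co.Counterexample
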